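import Pool.Agent.Helper61.FN.GoalsC
import Pool.Agent.Helper61.FN.Tools

/-!
# Project FN (MP_06d934_gt), packet FN-CTA: the symmetry `1 ↔ 2`
-/

set_option autoImplicit false

namespace Pool.Agent.Helper54.FN

open Finset Pool.Agent.Helper61.FN

/-- Reindexing of the edges by `σ` and of the monomials by `τ`. -/
theorem nrm_reindex {E J F k : Type} [Fintype E] [Fintype J] [Field F] [Field k] [Algebra F k]
    {m m' : J → E → ℤ} {c c' : J → F} {d d' : E → F} {lam : F} {v : E → ℤ} {M : ℤ} {ξ : E → k}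
    (σ : E ≃ E) (τ : J ≃ J) (hm : ∀ j e, m' (τ j) e = m j (σ e)) (hc : ∀ j, c' (τ j) = c j)
    (hd : ∀ e, d' e = d (σ e)) (h : Nrm m c d lam v M ξ) :
    Nrm m' c' d' lam (fun e ↦ v (σ e)) M (fun e ↦ ξ (σ e)) := by
  have hgr : ∀ j, gr (m' (τ j)) (fun e ↦ v (σ e)) = gr (m j) v := by
    intro j
    exact (sum_congr rfl fun e _ ↦ by rw [hm]).trans (Equiv.sum_comp σ fun e ↦ m j e * v e)
  have hpr : ∀ (j : J) (w : E → F), pr (m j) (fun e ↦ w (σ.symm e)) = pr (m' (τ j)) w := by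
    intro j w
    refine (Equiv.sum_comp σ fun e ↦ ((m j e : ℤ) : F) * w (σ.symm e)).symm.trans ?_
    exact sum_congr rfl fun e _ ↦ by rw [hm, Equiv.symm_apply_apply]
  have hmon : ∀ j, mon (fun e ↦ ξ (σ e)) (m' (τ j)) = mon ξ (m j) := by
    intro j
    exact (prod_congr rfl fun e _ ↦ by rw [hm]).trans (Equiv.prod_comp σ fun e ↦ ξ e ^ m j e)
  refine ⟨fun e ↦ h.ne _, h.lam_ne, h.M_pos, fun j ↦ ?_, ?_, ?_, ?_⟩
  · have h1 := hgr (τ.symm j)
    rw [Equiv.apply_symm_apply] at h1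
    rw [h1]
    exact h.le _
  · obtain ⟨j, hj⟩ := h.ex
    exact ⟨τ j, by rw [hgr, hj]⟩
  · have h1 := (Equiv.sum_comp σ fun e ↦ d e * (v e : F)).trans h.sum
    have h2 := Equiv.sum_comp σ d
    simp only [hd]
    rw [h2]
    exact h1
  · intro w g hg hj
    have h1 := h.lead (fun e ↦ w (σ.symm e)) g hg fun j hj' ↦ by
      have h2 := hj (τ j)
      rw [hc, ← hpr, hgr] at h2
      exact h2 hj'
    have h3 : ∑ e, d e * w (σ.symm e) = ∑ e, d' e * w e := by
      refine (Equiv.sum_comp σ fun e ↦ d e * w (σ.symm e)).symm.trans ?_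
      exact sum_congr rfl fun e _ ↦ by rw [hd, Equiv.symm_apply_apply]
    rw [h3] at h1
    rw [← h1]
    refine (Equiv.sum_comp τ _).symm.trans ?_
    exact sum_congr rfl fun j _ ↦ by rw [hgr, hc, hmon, hpr]

/-- The permutation of the edges. -/
theorem ta_inv : Function.Involutive ta := by
  intro e
  revert e
  decide

/-- The permutation of the monomials. -/
def tj : Fin 20 → Fin 20 :=
  ![0, 1, 3, 2, 5, 4, 6, 8, 7, 9, 11, 10, 13, 12, 17, 18, 19, 14, 15, 16]

theorem tj_inv : Function.Involutive tj := by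
  intro e
  revert e
  decide

theorem mC_tj : ∀ (j : Fin 20) (e : Fin 6), mC (tj j) e = mC j (ta e) := by
  decide

theorem goalCTA : G_CTA := by
  intro F k _ _ _ _ _ p q mu ep lam v M ξ h
  refine ⟨⟨h.par.q1, h.par.p1, h.par.mu0, h.par.ep2, h.par.ch0, h.par.ph0⟩, ?_⟩
  refine nrm_reindex (ta_inv.toPerm ta) (tj_inv.toPerm tj) (fun j e ↦ mC_tj j e) (fun j ↦ ?_)
    (fun e ↦ ?_) h.nrm
  · change cC q p mu ep (tj j) = cC p q mu ep j
    fin_cases j <;> simp [cC, tj, -mul_eq_mul_left_iff, -mul_eq_mul_right_iff] <;> ring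
  · change dC q p mu ep e = dC p q mu ep (ta e)
    fin_cases e <;> simp [dC, ta, -mul_eq_mul_left_iff, -mul_eq_mul_right_iff] <;> ring

end Pool.Agent.Helper54.FN
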